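import Mathlib
import Pool.Agent.helper70.FI4.SpecK

/-!
# Project fi4 (MP_baa4d7_al), row LBN: `lb` and `ls` are the traces
-/

set_option autoImplicit false

namespace Pool.Agent.FI4

open Pool.Agent.helper58.DC Pool.Agent.DI Pool.Agent.GR Pool.Agent.OB Pool.Agent.DR Pool.Agent.FI Pool.Agent.FI3

theorem LBN_floor (l : ℕ) : ⌊((l : ℂ)).re⌋₊ = l := by
  rw [Complex.natCast_re, Nat.floor_natCast]

theorem LBN (hQIR : QIR_stmt) (hBCL : BCL_stmt) (hB2 : B2_stmt) : LBN_stmt := by
  intro p M hM G _ _ H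
  have key : ∀ S : Set (G → ℂ), BC M H S →
      (ls p H S : ℂ) = ∑ᶠ ψ ∈ S, EE p H ψ ψ ∧ (S.Nonempty → 1 ≤ ls p H S) := by
    intro S hS
    rcases S.eq_empty_or_nonempty with hem | hne
    · rw [hem]
      refine ⟨?_, fun h => absurd h Set.not_nonempty_empty⟩
      unfold ls
      rw [finsum_mem_empty]
      simp
    · obtain ⟨l, hl, he⟩ := hQIR p M hM G H S hS hne
      have h1 : ls p H S = l := by
        unfold ls
        rw [he]
        exact LBN_floor l
      rw [h1, he]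
      exact ⟨rfl, fun _ => hl⟩
  refine ⟨key, fun χ => ?_⟩
  have h1 := hBCL G M χ H
  have h2 := key _ h1
  exact ⟨h1, h2.1, h2.2⟩

end Pool.Agent.FI4
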